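import Mathlib
import Pool.Agent.Results.MP_03d093_al.SphereBall

/-!
# Words, reduction, sections and weights for the first Grigorchuk group
-/

set_option autoImplicit false

namespace Pool.Agent.H56R2.Grig

open Pool.Agent.Results.MP_03d093_al.SphereBall

instance : DecidableEq Lt := fun s t => by
  cases s <;> cases t <;> first | exact isTrue rfl | exact isFalse (by intro h; cases h)

/-- Merge a letter with a word. -/
def cons' : Lt → List Lt → List Lt
  | .A, .A :: v => v
  | .B, .B :: v => v
  | .B, .C :: v => .D :: v
  | .B, .D :: v => .C :: v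
  | .C, .B :: v => .D :: v
  | .C, .C :: v => v
  | .C, .D :: v => .B :: v
  | .D, .B :: v => .C :: v
  | .D, .C :: v => .B :: v
  | .D, .D :: v => v
  | s, v => s :: v

/-- Reduction to an alternating word. -/
def red : List Lt → List Lt
  | [] => []
  | s :: w => cons' s (red w)

theorem ext_perm {f g : Equiv.Perm (List Bool)} (h : ∀ w, f w = g w) : f = g := Equiv.ext h

theorem bcd_mul (w : List Bool) :
    (b (c w) = d w ∧ c (b w) = d w) ∧ (b (d w) = c w ∧ d (b w) = c w) ∧
      (c (d w) = b w ∧ d (c w) = b w) := by
  induction w with
  | nil => simp [b_apply, c_apply, d_apply, bFun, cFun, dFun]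
  | cons x w ih =>
    obtain ⟨⟨h1, h2⟩, ⟨h3, h4⟩, ⟨h5, h6⟩⟩ := ih
    simp only [b_apply, c_apply, d_apply] at h1 h2 h3 h4 h5 h6 ⊢
    cases x
    · simp [bFun, cFun, dFun, aFun_invol w]
    · simp [bFun, cFun, dFun, h1, h2, h3, h4, h5, h6]

theorem bc : b * c = d := ext_perm fun w => (bcd_mul w).1.1
theorem cb : c * b = d := ext_perm fun w => (bcd_mul w).1.2
theorem bd : b * d = c := ext_perm fun w => (bcd_mul w).2.1.1
theorem db : d * b = c := ext_perm fun w => (bcd_mul w).2.1.2
theorem cd : c * d = b := ext_perm fun w => (bcd_mul w).2.2.1
theorem dc : d * c = b := ext_perm fun w => (bcd_mul w).2.2.2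
theorem bb : b * b = 1 := gen_sq .B
theorem cc : c * c = 1 := gen_sq .C

theorem ev_cons' (s : Lt) (v : List Lt) : ev (cons' s v) = gen s * ev v := by
  cases v with
  | nil => cases s <;> simp [cons', gen]
  | cons t v =>
    cases s <;> cases t <;>
      simp [cons', gen, ← mul_assoc, aa, bb, cc, dd, bc, cb, bd, db, cd, dc]

theorem ev_red (w : List Lt) : ev (red w) = ev w := by
  induction w with
  | nil => rfl
  | cons s w ih => rw [red, ev_cons', ih, ev_cons]

/-- Alternating words. -/
def alt : List Lt → Prop
  | [] => True
  | [_] => True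
  | s :: t :: w => (s = .A ↔ t ≠ .A) ∧ alt (t :: w)

theorem alt_tail {s : Lt} {w : List Lt} (h : alt (s :: w)) : alt w := by
  cases w with
  | nil => trivial
  | cons t w => exact h.2

theorem alt_change {s s' : Lt} {w : List Lt} (h : alt (s :: w)) (hs : s ≠ .A) (hs' : s' ≠ .A) :
    alt (s' :: w) := by
  cases w with
  | nil => trivial
  | cons t w =>
    refine ⟨?_, h.2⟩
    have := h.1
    tauto

theorem alt_cons' (s : Lt) (v : List Lt) (h : alt v) : alt (cons' s v) := by
  cases v with
  | nil => cases s <;> simp [cons', alt]
  | cons t v =>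
    cases s <;> cases t <;>
      first
        | exact alt_tail h
        | exact alt_change h (by decide) (by decide)
        | exact ⟨by decide, h⟩

theorem alt_red (w : List Lt) : alt (red w) := by
  induction w with
  | nil => trivial
  | cons s w ih => exact alt_cons' s _ ih

/-- Number of letters `a`. -/
def nA : List Lt → ℕ
  | [] => 0
  | .A :: w => nA w + 1
  | _ :: w => nA w

/-- Number of other letters. -/
def nX : List Lt → ℕ
  | [] => 0
  | .A :: w => nX w
  | _ :: w => nX w + 1

theorem nA_add_nX (w : List Lt) : nA w + nX w = w.length := by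
  induction w with
  | nil => rfl
  | cons s w ih => cases s <;> simp [nA, nX] <;> omega

theorem nX_alt : ∀ w : List Lt, alt w → nX w ≤ nA w + 1 ∧ (∀ v, w = .A :: v → nX w ≤ nA w)
  | [], _ => by simp [nX, nA]
  | [s], _ => by cases s <;> simp [nX, nA]
  | s :: t :: w, h => by
    have ih := nX_alt (t :: w) h.2
    cases s
    · refine ⟨?_, ?_⟩
      · simp only [nX, nA] at ih ⊢; omega
      · intro v _; simp only [nX, nA] at ih ⊢; omega
    all_goals
      have ht : t = .A := by
        have := h.1
        by_contra hne
        have := this.2 hne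
        cases this
      subst ht
      have := ih.2 w rfl
      refine ⟨?_, by intro v hv; cases hv⟩
      simp only [nX, nA] at this ⊢
      omega

/-! ### Sections -/

/-- Parity of the number of letters `a`. -/
def par : List Lt → Bool
  | [] => false
  | .A :: w => !par w
  | _ :: w => par w

/-- The section of a letter. -/
def secl : Lt → Bool → List Lt
  | .A, _ => []
  | .B, false => [.A]
  | .B, true => [.C]
  | .C, false => [.A]
  | .C, true => [.D]
  | .D, false => []
  | .D, true => [.B]

/-- The section of a word at the first letter `s`. -/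
def sec (s : Bool) : List Lt → List Lt
  | [] => []
  | x :: w => secl x (xor s (par w)) ++ sec s w

theorem gen_cons (x : Lt) (s : Bool) (w : List Bool) :
    gen x (s :: w) = (xor s (par [x])) :: ev (secl x s) w := by
  cases x <;> cases s <;>
    simp [gen, secl, par, a_apply, b_apply, c_apply, d_apply, aFun, bFun, cFun, dFun]

theorem par_append (u v : List Lt) : par (u ++ v) = xor (par u) (par v) := by
  induction u with
  | nil => simp [par]
  | cons s u ih => cases s <;> simp [par, ih]

theorem ev_cons_word (u : List Lt) (s : Bool) (w : List Bool) :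
    ev u (s :: w) = (xor s (par u)) :: ev (sec s u) w := by
  induction u with
  | nil => simp [par, sec]
  | cons x u ih =>
    rw [ev_cons, Equiv.Perm.mul_apply, ih, gen_cons, sec, ev_append, Equiv.Perm.mul_apply]
    have : par (x :: u) = xor (par [x]) (par u) := by
      have := par_append [x] u
      simpa using this
    rw [this]
    congr 1
    cases s <;> cases par u <;> cases par [x] <;> rfl

theorem sec_append (s : Bool) (u v : List Lt) :
    sec s (u ++ v) = sec (xor s (par v)) u ++ sec s v := by
  induction u with
  | nil => simp [sec]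
  | cons x u ih =>
    simp only [List.cons_append, sec, ih, List.append_assoc, par_append]
    congr 2
    cases s <;> cases par u <;> cases par v <;> rfl

theorem ev_eq_of_sec {u v : List Lt} (hp : par u = par v) (h0 : ev (sec false u) = ev (sec false v))
    (h1 : ev (sec true u) = ev (sec true v)) : ev u = ev v := by
  refine ext_perm fun w => ?_
  cases w with
  | nil => rw [ev_nil_apply, ev_nil_apply]
  | cons s w =>
    rw [ev_cons_word, ev_cons_word, hp]
    cases s
    · rw [h0]
    · rw [h1]

end Pool.Agent.H56R2.Grig
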