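import Mathlib
import Pool.Agent.H56R2.Grig.Words

/-!
# Upper bound for the growth of the first Grigorchuk group
-/

set_option autoImplicit false

namespace Pool.Agent.H56R2.Grig

open Pool.Agent.Results.MP_03d093_al.SphereBall

/-! ### The number `lam` -/

/-- Defining property of `lam`. -/
structure IsLam (lam : ℝ) : Prop where
  pos : 0 < lam
  eq : lam ^ 3 = lam ^ 2 + 2 * lam + 4

theorem IsLam.gt {lam : ℝ} (h : IsLam lam) : 2.4 < lam := by
  by_contra hc
  push Not at hc
  have h1 := h.pos
  have h2 := h.eq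
  nlinarith [mul_nonneg h1.le h1.le, mul_nonneg (mul_nonneg h1.le h1.le) (sub_nonneg.2 hc)]

theorem IsLam.lt {lam : ℝ} (h : IsLam lam) : lam < 2.5 := by
  by_contra hc
  push Not at hc
  have h1 := h.pos
  have h2 := h.eq
  nlinarith [mul_nonneg h1.le h1.le, mul_nonneg (mul_nonneg h1.le h1.le) (sub_nonneg.2 hc)]

/-- Weights of the letters. -/
noncomputable def W (lam : ℝ) : Lt → ℝ
  | .A => 1
  | .B => 2 / lam + 2 / lam ^ 2
  | .C => 1 / lam + 2 / lam ^ 2
  | .D => 1 / lam

/-- Weight of a word. -/
noncomputable def wt (lam : ℝ) (u : List Lt) : ℝ := (u.map (W lam)).sum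

@[simp] theorem wt_nil (lam : ℝ) : wt lam [] = 0 := rfl
@[simp] theorem wt_cons (lam : ℝ) (s : Lt) (u : List Lt) :
    wt lam (s :: u) = W lam s + wt lam u := by simp [wt]
@[simp] theorem wt_append (lam : ℝ) (u v : List Lt) :
    wt lam (u ++ v) = wt lam u + wt lam v := by simp [wt]

variable {lam : ℝ}

theorem W_lower (h : IsLam lam) (s : Lt) : 0.4 ≤ W lam s := by
  have h1 := h.pos
  have h2 := h.lt
  have h3 : 0.4 ≤ 1 / lam := by
    rw [le_div_iff₀ h1]; linarith
  have h4 : 0 < 2 / lam ^ 2 := by positivity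
  have h5 : 2 / lam = 1 / lam + 1 / lam := by ring
  cases s <;> simp only [W] <;> linarith

theorem W_upper (h : IsLam lam) (s : Lt) : W lam s ≤ 2 := by
  have h1 := h.pos
  have h2 := h.gt
  have h3 : 1 / lam ≤ 0.5 := by
    rw [div_le_iff₀ h1]; linarith
  have h4 : 2 / lam ^ 2 ≤ 0.5 := by
    rw [div_le_iff₀ (by positivity)]; nlinarith
  have h5 : 2 / lam = 1 / lam + 1 / lam := by ring
  cases s <;> simp only [W] <;> linarith

theorem W_third (h : IsLam lam) : W lam .B = W lam .C + W lam .D := by
  simp only [W]; ring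

theorem wt_nonneg (h : IsLam lam) (u : List Lt) : 0 ≤ wt lam u := by
  induction u with
  | nil => simp
  | cons s u ih =>
    have := W_lower h s
    rw [wt_cons]
    linarith

theorem wt_lower (h : IsLam lam) (u : List Lt) : 0.4 * u.length ≤ wt lam u := by
  induction u with
  | nil => simp
  | cons s u ih =>
    have := W_lower h s
    rw [wt_cons, List.length_cons]
    push_cast
    linarith

theorem wt_upper (h : IsLam lam) (u : List Lt) : wt lam u ≤ 2 * u.length := by
  induction u with
  | nil => simp
  | cons s u ih =>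
    have := W_upper h s
    rw [wt_cons, List.length_cons]
    push_cast
    linarith

theorem wt_cons' (h : IsLam lam) (s : Lt) (v : List Lt) :
    wt lam (cons' s v) ≤ W lam s + wt lam v := by
  have hb := W_lower h .B
  have hc := W_lower h .C
  have hd := W_lower h .D
  have ha := W_lower h .A
  have hbcd := W_third h
  cases v with
  | nil => cases s <;> simp [cons']
  | cons t v =>
    cases s <;> cases t <;> simp only [cons', wt_cons] <;> linarith

theorem wt_red (h : IsLam lam) (w : List Lt) : wt lam (red w) ≤ wt lam w := by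
  induction w with
  | nil => simp [red]
  | cons s w ih =>
    rw [red, wt_cons]
    exact (wt_cons' h s _).trans (by linarith)

theorem eta_B (h : IsLam lam) : W lam .A + W lam .C = 2 / lam * (W lam .B + 1) := by
  have h1 := h.pos.ne'
  have h2 := h.eq
  simp only [W]
  field_simp
  linear_combination h2

theorem eta_C (h : IsLam lam) : W lam .A + W lam .D = 2 / lam * (W lam .C + 1) := by
  have h1 := h.pos.ne'
  have h2 := h.eq
  simp only [W]
  field_simp
  linear_combination h2

theorem eta_D (h : IsLam lam) : W lam .B = 2 / lam * (W lam .D + 1) := by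
  have h1 := h.pos.ne'
  simp only [W]
  field_simp
  ring

theorem wt_sec (h : IsLam lam) (u : List Lt) :
    wt lam (sec false u) + wt lam (sec true u) = 2 / lam * (wt lam u - nA u + nX u) := by
  induction u with
  | nil => simp [sec, nA, nX]
  | cons s u ih =>
    have e1 := eta_B h
    have e2 := eta_C h
    have e3 := eta_D h
    simp only [sec, wt_append, wt_cons]
    cases s
    · simp only [secl, wt_nil, nA, nX, W] at *
      push_cast
      linarith
    all_goals
      cases par u <;>
        simp only [secl, wt_nil, wt_cons, nA, nX, Bool.xor_false, Bool.xor_true, Bool.not_false,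
          Bool.not_true, Bool.false_xor, Bool.true_xor] at * <;>
        push_cast <;> linarith

theorem wt_sec_le (h : IsLam lam) (u : List Lt) (hu : alt u) :
    wt lam (sec false u) + wt lam (sec true u) ≤ 2 / lam * (wt lam u + 1) := by
  rw [wt_sec h]
  have h1 := (nX_alt u hu).1
  have h2 : (nX u : ℝ) ≤ nA u + 1 := by exact_mod_cast h1
  have h3 : 0 < 2 / lam := div_pos two_pos h.pos
  exact mul_le_mul_of_nonneg_left (by linarith) h3.le

/-! ### The code -/

open Classical in
/-- The code of a word. -/
noncomputable def code (lam : ℝ) : ℕ → List Lt → List (List Lt ⊕ Bool)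
  | 0, u => [Sum.inl (red u)]
  | n + 1, u =>
    if wt lam (red u) ≤ 21 then [Sum.inl (red u)]
    else Sum.inr (par (red u)) ::
      (code lam n (sec false (red u)) ++ code lam n (sec true (red u)))

theorem code_inj (n : ℕ) : ∀ (u u' : List Lt) (r r' : List (List Lt ⊕ Bool)),
    code lam n u ++ r = code lam n u' ++ r' → ev u = ev u' ∧ r = r' := by
  have leaf : ∀ (u u' : List Lt) (r r' : List (List Lt ⊕ Bool)),
      [Sum.inl (red u)] ++ r = [Sum.inl (red u')] ++ r' → ev u = ev u' ∧ r = r' := by
    intro u u' r r' h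
    simp only [List.cons_append, List.nil_append, List.cons.injEq, Sum.inl.injEq] at h
    refine ⟨?_, h.2⟩
    rw [← ev_red u, ← ev_red u', h.1]
  induction n with
  | zero => exact leaf
  | succ n ih =>
    intro u u' r r' h
    simp only [code] at h
    split_ifs at h with h1 h2 h2
    · exact leaf u u' r r' h
    · simp at h
    · simp at h
    · simp only [List.cons_append, List.cons.injEq, Sum.inr.injEq, List.append_assoc] at h
      obtain ⟨hp, h3⟩ := h
      obtain ⟨h4, h5⟩ := ih _ _ _ _ h3
      obtain ⟨h6, h7⟩ := ih _ _ _ _ h5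
      refine ⟨?_, h7⟩
      rw [← ev_red u, ← ev_red u']
      exact ev_eq_of_sec hp h4 h6

theorem sec_wt_each (h : IsLam lam) (u : List Lt) (hu : alt u) (h21 : 21 < wt lam u) (s : Bool) :
    wt lam (sec s u) ≤ wt lam u - 1 := by
  have h1 := wt_sec_le h u hu
  have h2 := wt_nonneg h (sec false u)
  have h3 := wt_nonneg h (sec true u)
  have h4 : 2 / lam ≤ 0.9 := by
    rw [div_le_iff₀ h.pos]
    have := h.gt
    linarith
  have h5 : 2 / lam * (wt lam u + 1) ≤ 0.9 * (wt lam u + 1) :=
    mul_le_mul_of_nonneg_right h4 (by linarith)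
  cases s <;> linarith

/-- All letters of the code are in a finite set. -/
theorem code_mem (h : IsLam lam) (n : ℕ) : ∀ u : List Lt, wt lam u ≤ n →
    ∀ x ∈ code lam n u, ∀ v, x = Sum.inl v → wt lam v ≤ 21 := by
  induction n with
  | zero =>
    intro u hu x hx v hv
    simp only [code, List.mem_singleton] at hx
    rw [hv] at hx
    have := Sum.inl.inj hx
    subst this
    have := wt_red h u
    push_cast at hu
    linarith
  | succ n ih =>
    intro u hu x hx v hv
    simp only [code] at hx
    have hr := wt_red h u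
    split_ifs at hx with h1
    · simp only [List.mem_singleton] at hx
      rw [hv] at hx
      have := Sum.inl.inj hx
      subst this
      exact h1
    · push Not at h1
      push_cast at hu
      have hf := sec_wt_each h (red u) (alt_red u) h1 false
      have ht := sec_wt_each h (red u) (alt_red u) h1 true
      simp only [List.mem_cons, List.mem_append] at hx
      rcases hx with hx | hx | hx
      · rw [hv] at hx; cases hx
      · exact ih _ (by linarith) x hx v hv
      · exact ih _ (by linarith) x hx v hv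

/-- The exponent. -/
noncomputable def al (lam : ℝ) : ℝ := Real.log 2 / Real.log lam

theorem log_lam_pos (h : IsLam lam) : 0 < Real.log lam :=
  Real.log_pos (by have := h.gt; linarith)

theorem al_pos (h : IsLam lam) : 0 < al lam := div_pos (Real.log_pos one_lt_two) (log_lam_pos h)

theorem al_lt_one (h : IsLam lam) : al lam < 1 := by
  rw [al, div_lt_one (log_lam_pos h)]
  exact Real.log_lt_log two_pos (by have := h.gt; linarith)

theorem lam_rpow_al (h : IsLam lam) : lam ^ al lam = 2 := by
  rw [Real.rpow_def_of_pos h.pos, al, mul_div_cancel₀ _ (log_lam_pos h).ne',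
    Real.exp_log two_pos]

theorem rpow_add_le {α x y : ℝ} (h0 : 0 ≤ α) (h1 : α ≤ 1) (hx : 0 ≤ x) (hy : 0 ≤ y) :
    x ^ α + y ^ α ≤ 2 * ((x + y) / 2) ^ α := by
  have hc := (Real.concaveOn_rpow h0 h1).2 (show x ∈ Set.Ici (0 : ℝ) from hx)
    (show y ∈ Set.Ici (0 : ℝ) from hy) (show (0 : ℝ) ≤ 1 / 2 by norm_num)
    (show (0 : ℝ) ≤ 1 / 2 by norm_num) (by norm_num)
  simp only [smul_eq_mul] at hc
  have e : (x + y) / 2 = 1 / 2 * x + 1 / 2 * y := by ring
  rw [e]
  linarith

/-- `K`. -/
noncomputable def KK (lam : ℝ) : ℝ := 2 / (1 - (0.9 : ℝ) ^ al lam)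

theorem KK_den (h : IsLam lam) : 0 < 1 - (0.9 : ℝ) ^ al lam := by
  have := Real.rpow_lt_one (x := 0.9) (by norm_num) (by norm_num) (al_pos h)
  linarith

theorem KK_ge (h : IsLam lam) : 2 ≤ KK lam := by
  have h1 := KK_den h
  have h2 : (0 : ℝ) < (0.9 : ℝ) ^ al lam := by positivity
  rw [KK, le_div_iff₀ h1]
  nlinarith

/-- The bound for the number of leaves. -/
noncomputable def F (lam R : ℝ) : ℝ := if R ≤ 21 then 1 else KK lam * (R - 1) ^ al lam

theorem F_mono (h : IsLam lam) {x y : ℝ} (hxy : x ≤ y) : F lam x ≤ F lam y := by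
  have hK := KK_ge h
  unfold F
  split_ifs with h1 h2 h2
  · exact le_rfl
  · push Not at h2
    have : 1 ≤ (y - 1) ^ al lam := Real.one_le_rpow (by linarith) (al_pos h).le
    nlinarith
  · linarith
  · push Not at h1 h2
    exact mul_le_mul_of_nonneg_left (Real.rpow_le_rpow (by linarith) (by linarith) (al_pos h).le)
      (by linarith)

theorem F_split (h : IsLam lam) {R R1 R2 : ℝ} (hR : 21 < R)
    (hs : R1 + R2 ≤ 2 / lam * (R + 1)) (h1 : 0 ≤ R1) (h2 : 0 ≤ R2) :
    F lam R1 + F lam R2 ≤ F lam R := by
  have hK := KK_ge h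
  have hα := al_pos h
  have hα1 := al_lt_one h
  have hη : 2 / lam ≤ 5 / 6 := by
    rw [div_le_iff₀ h.pos]
    have := h.gt
    linarith
  have hη0 : 0 < 2 / lam := div_pos two_pos h.pos
  have hle : 2 / lam * (R + 1) ≤ 5 / 6 * (R + 1) := mul_le_mul_of_nonneg_right hη (by linarith)
  have hge1 : 1 ≤ (R - 1) ^ al lam := Real.one_le_rpow (by linarith) hα.le
  -- mixed case
  have mixed : ∀ S : ℝ, 21 < S → S ≤ 2 / lam * (R + 1) →
      KK lam * (S - 1) ^ al lam + 1 ≤ KK lam * (R - 1) ^ al lam := by
    intro S hS hSR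
    have e1 : S - 1 ≤ 0.9 * (R - 1) := by norm_num at *; linarith
    have e2 : (S - 1) ^ al lam ≤ (0.9 : ℝ) ^ al lam * (R - 1) ^ al lam := by
      rw [← Real.mul_rpow (by norm_num) (by linarith)]
      exact Real.rpow_le_rpow (by linarith) e1 hα.le
    have e3 : KK lam * (1 - (0.9 : ℝ) ^ al lam) = 2 := by
      rw [KK, div_mul_cancel₀ _ (KK_den h).ne']
    have e4 : KK lam * (S - 1) ^ al lam ≤ KK lam * ((0.9 : ℝ) ^ al lam * (R - 1) ^ al lam) :=
      mul_le_mul_of_nonneg_left e2 (by linarith)
    have e5 : KK lam * (R - 1) ^ al lam - KK lam * ((0.9 : ℝ) ^ al lam * (R - 1) ^ al lam)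
        = 2 * (R - 1) ^ al lam := by
      rw [← e3]; ring
    linarith
  unfold F
  rw [if_neg (not_le.2 hR)]
  split_ifs with ha hb hb
  · nlinarith
  · push Not at hb
    have := mixed R2 hb (by linarith)
    linarith
  · push Not at ha
    have := mixed R1 ha (by linarith)
    linarith
  · push Not at ha hb
    have e1 := rpow_add_le hα.le hα1.le (x := R1 - 1) (y := R2 - 1) (by linarith) (by linarith)
    have e2 : (R1 - 1 + (R2 - 1)) / 2 ≤ (R - 1) / lam := by
      have e3 : 2 / lam * (R + 1) - 2 ≤ 2 / lam * (R - 1) := by nlinarith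
      have e4 : 2 / lam * (R - 1) = 2 * ((R - 1) / lam) := by ring
      linarith
    have e5 : ((R1 - 1 + (R2 - 1)) / 2) ^ al lam ≤ ((R - 1) / lam) ^ al lam :=
      Real.rpow_le_rpow (by linarith) e2 hα.le
    have e6 : ((R - 1) / lam) ^ al lam = (R - 1) ^ al lam / 2 := by
      rw [Real.div_rpow (by linarith) h.pos.le, lam_rpow_al h]
    rw [← mul_add]
    refine mul_le_mul_of_nonneg_left ?_ (by linarith)
    linarith

theorem code_length (h : IsLam lam) (n : ℕ) : ∀ u : List Lt, wt lam u ≤ n →
    ((code lam n u).length : ℝ) + 1 ≤ 2 * F lam (wt lam u) := by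
  have hF1 : ∀ u : List Lt, 1 ≤ F lam (wt lam u) := by
    intro u
    have h1 := F_mono h (wt_nonneg h u)
    have h2 : F lam 0 = 1 := by unfold F; rw [if_pos (by norm_num)]
    linarith
  induction n with
  | zero =>
    intro u hu
    have := hF1 u
    simp only [code, List.length_singleton]
    push_cast
    linarith
  | succ n ih =>
    intro u hu
    have hr := wt_red h u
    simp only [code]
    split_ifs with h1
    · have := hF1 u
      simp only [List.length_singleton]
      push_cast
      linarith
    · push Not at h1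
      push_cast at hu
      have hf := sec_wt_each h (red u) (alt_red u) h1 false
      have ht := sec_wt_each h (red u) (alt_red u) h1 true
      have i1 := ih (sec false (red u)) (by linarith)
      have i2 := ih (sec true (red u)) (by linarith)
      have i3 := F_split h h1 (wt_sec_le h (red u) (alt_red u)) (wt_nonneg h _) (wt_nonneg h _)
      have i4 := F_mono h hr
      simp only [List.length_cons, List.length_append]
      push_cast
      linarith

/-! ### Counting -/

theorem card_lists_le {S : Type} [Finite S] (m : ℕ) (P : Set (List S))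
    (hP : ∀ l ∈ P, l.length ≤ m) : P.Finite ∧ P.ncard ≤ (Nat.card S + 1) ^ m := by
  classical
  let f : List S → (Fin m → Option S) := fun l i => l[(i : ℕ)]?
  have hinj : Set.InjOn f P := by
    intro l hl l' hl' he
    apply List.ext_getElem?
    intro i
    by_cases hi : i < m
    · exact congrFun he ⟨i, hi⟩
    · have h1 := hP l hl
      have h2 := hP l' hl'
      rw [List.getElem?_eq_none (by omega), List.getElem?_eq_none (by omega)]
  have hfin : P.Finite := (Set.toFinite (f '' P)).of_finite_image hinj
  refine ⟨hfin, ?_⟩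
  rw [← hinj.ncard_image]
  refine (Set.ncard_le_ncard (Set.subset_univ _)).trans ?_
  rw [Set.ncard_univ, Nat.card_fun, Finite.card_option]
  simp

/-- Finite alphabet of the codes. -/
abbrev Sym (lam : ℝ) : Type := {x : List Lt ⊕ Bool // ∀ v, x = Sum.inl v → wt lam v ≤ 21}

theorem sym_finite (h : IsLam lam) : Finite (Sym lam) := by
  have h1 : {v : List Lt | wt lam v ≤ 21}.Finite := by
    refine (words_finite 52).subset ?_
    intro v hv
    have := wt_lower h v
    have hv' : wt lam v ≤ 21 := hv
    have h2 : (v.length : ℝ) < 53 := by norm_num at this; linarith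
    have h3 : v.length < 53 := by exact_mod_cast h2
    show v.length ≤ 52
    omega
  have h2 : {x : List Lt ⊕ Bool | ∀ v, x = Sum.inl v → wt lam v ≤ 21}.Finite := by
    refine ((h1.image Sum.inl).union (Set.toFinite (Set.range Sum.inr))).subset ?_
    intro x hx
    cases x with
    | inl v => exact Or.inl ⟨v, hx v rfl, rfl⟩
    | inr b => exact Or.inr ⟨b, rfl⟩
  exact h2

theorem ball_le (h : IsLam lam) (n m : ℕ) (hm : 2 * F lam (2 * n) ≤ m) :
    ball n ≤ (Nat.card (Sym lam) + 1) ^ m := by
  classical
  have hfin := sym_finite h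
  choose g hg1 hg2 using exists_geod
  -- the code of an element of the ball, as a list over `Sym`
  let cd : {g : G // len g ≤ n} → List (List Lt ⊕ Bool) := fun x => code lam (2 * n) (g x.1)
  have hlen : ∀ x : {g : G // len g ≤ n}, wt lam (g x.1) ≤ (2 * n : ℕ) := by
    intro x
    have h1 := wt_upper h (g x.1)
    have h2 : ((g x.1).length : ℝ) ≤ n := by
      rw [hg1 x.1]; exact_mod_cast x.2
    push_cast
    linarith
  let cs : {g : G // len g ≤ n} → List (Sym lam) := fun x =>
    (cd x).pmap (fun y (hy : ∀ v, y = Sum.inl v → wt lam v ≤ 21) => (⟨y, hy⟩ : Sym lam))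
      (fun y hy => code_mem h (2 * n) (g x.1) (hlen x) y hy)
  have hcs : ∀ x, (cs x).map Subtype.val = cd x := by
    intro x
    simp only [cs, List.map_pmap]
    simp
  have hinj : Function.Injective cs := by
    intro x y hxy
    have h1 : cd x = cd y := by rw [← hcs, ← hcs, hxy]
    have h2 := (code_inj (lam := lam) (2 * n) (g x.1) (g y.1) [] [] (by simpa [cd] using h1)).1
    apply Subtype.ext
    rw [← hg2 x.1, ← hg2 y.1]
    exact Subtype.ext h2
  have hP := card_lists_le (S := Sym lam) m (Set.range cs) (by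
    rintro _ ⟨x, rfl⟩
    have h1 := code_length h (2 * n) (g x.1) (hlen x)
    have h2 : (cs x).length = (cd x).length := by simp [cs]
    have h3 : F lam (wt lam (g x.1)) ≤ F lam (2 * n) := F_mono h (by
      have := hlen x; push_cast at this; exact this)
    have h4 : ((cs x).length : ℝ) ≤ m := by
      rw [h2]
      have : ((cd x).length : ℝ) = (code lam (2 * n) (g x.1)).length := rfl
      linarith
    exact_mod_cast h4)
  have hb : ball n = (Set.range cs).ncard := by
    unfold ball
    rw [← Nat.card_coe_set_eq]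
    exact Nat.card_congr (Equiv.ofInjective cs hinj)
  rw [hb]
  exact hP.2

/-- **Upper bound.** -/
theorem upper (h : IsLam lam) :
    ∃ C : ℝ, 0 < C ∧ ∀ n : ℕ, 1 ≤ n → (ball n : ℝ) ≤ Real.exp (C * (n : ℝ) ^ al lam) := by
  have hα := al_pos h
  have hK := KK_ge h
  set Q : ℝ := (Nat.card (Sym lam) : ℝ) + 1 with hQ
  have hQ1 : 1 ≤ Q := by
    have : (0 : ℝ) ≤ (Nat.card (Sym lam) : ℝ) := Nat.cast_nonneg _
    linarith
  have hlogQ : 0 ≤ Real.log Q := Real.log_nonneg hQ1
  have h2α : (2 : ℝ) ^ al lam ≤ 2 := by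
    have := Real.rpow_le_rpow_of_exponent_le (x := 2) (by norm_num) (al_lt_one h).le
    simpa using this
  refine ⟨(Real.log Q + 1) * (4 * KK lam + 3), by positivity, ?_⟩
  intro n hn
  have hn1 : (1 : ℝ) ≤ n := by exact_mod_cast hn
  have hnα : 1 ≤ (n : ℝ) ^ al lam := Real.one_le_rpow hn1 hα.le
  obtain ⟨m, hm1, hm2⟩ : ∃ m : ℕ, 2 * F lam (2 * n) ≤ m ∧ (m : ℝ) ≤ (4 * KK lam + 3) * (n : ℝ) ^ al lam := by
    refine ⟨⌈2 * F lam (2 * n)⌉₊, Nat.le_ceil _, ?_⟩
    have hF0 : 0 ≤ F lam (2 * n) := by
      unfold F
      split_ifs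
      · norm_num
      · have : (0 : ℝ) ≤ 2 * n - 1 := by linarith
        have h3 := Real.rpow_nonneg this (al lam)
        nlinarith
    have hF : F lam (2 * n) ≤ (2 * KK lam + 1) * (n : ℝ) ^ al lam := by
      unfold F
      split_ifs with h1
      · nlinarith
      · have e1 : (2 * (n : ℝ) - 1) ^ al lam ≤ (2 * (n : ℝ)) ^ al lam :=
          Real.rpow_le_rpow (by linarith) (by linarith) hα.le
        rw [Real.mul_rpow (by norm_num) (by linarith)] at e1
        have e2 : (2 : ℝ) ^ al lam * (n : ℝ) ^ al lam ≤ 2 * (n : ℝ) ^ al lam :=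
          mul_le_mul_of_nonneg_right h2α (by linarith)
        have e3 : KK lam * (2 * (n : ℝ) - 1) ^ al lam ≤ KK lam * (2 * (n : ℝ) ^ al lam) :=
          mul_le_mul_of_nonneg_left (by linarith) (by linarith)
        nlinarith
    have := (Nat.ceil_lt_add_one (by linarith : 0 ≤ 2 * F lam (2 * n))).le
    nlinarith
  have hb := ball_le h n m hm1
  have hb' : (ball n : ℝ) ≤ Q ^ m := by
    have : (ball n : ℝ) ≤ (((Nat.card (Sym lam) + 1) ^ m : ℕ) : ℝ) := by exact_mod_cast hb
    rw [hQ]
    push_cast at this
    exact this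
  refine hb'.trans ?_
  rw [← Real.rpow_natCast, Real.rpow_def_of_pos (by linarith)]
  refine Real.exp_le_exp.2 ?_
  have e1 : Real.log Q * m ≤ Real.log Q * ((4 * KK lam + 3) * (n : ℝ) ^ al lam) :=
    mul_le_mul_of_nonneg_left hm2 hlogQ
  have e2 : 0 ≤ (4 * KK lam + 3) * (n : ℝ) ^ al lam := by positivity
  nlinarith

end Pool.Agent.H56R2.Grig
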