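import Mathlib
import Pool.Agent.H56R2.Grig.Upper

/-!
# From a geometric sequence of lower bounds to the growth type
-/

set_option autoImplicit false

namespace Pool.Agent.H56R2.Grig

open Pool.Agent.Results.MP_03d093_al.SphereBall

theorem exists_lam : ∃ lam : ℝ, IsLam lam := by
  have hc : ContinuousOn (fun x : ℝ => x ^ 3 - x ^ 2 - 2 * x - 4) (Set.Icc 2 3) := by fun_prop
  have h := intermediate_value_Icc (show (2 : ℝ) ≤ 3 by norm_num) hc
  have h0 : (0 : ℝ) ∈ Set.Icc ((2 : ℝ) ^ 3 - 2 ^ 2 - 2 * 2 - 4) (3 ^ 3 - 3 ^ 2 - 2 * 3 - 4) := by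
    constructor <;> norm_num
  obtain ⟨x, hx, hx0⟩ := h h0
  refine ⟨x, by linarith [hx.1], ?_⟩
  have : x ^ 3 - x ^ 2 - 2 * x - 4 = 0 := hx0
  linarith

theorem two_le_ball_one : 2 ≤ ball 1 := by
  have hne : (1 : G) ≠ evG [.A] := by
    intro h
    have h1 : (1 : Equiv.Perm (List Bool)) = a := by
      have := congrArg Subtype.val h
      simpa [evG, gen] using this
    have h2 := congrArg (fun f => f [true]) h1
    simp [a_apply, aFun] at h2
  have h1 : len (1 : G) ≤ 1 := by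
    have := len_le ([] : List Lt)
    have e : evG ([] : List Lt) = 1 := rfl
    rw [e] at this
    simp at this
    omega
  have h2 : len (evG [.A]) ≤ 1 := by
    have := len_le [Lt.A]
    simpa using this
  unfold ball
  rw [← Nat.card_eq_two_iff.2 (show ∃ x y : Bool, x ≠ y ∧ {x, y} = @Set.univ Bool from
    ⟨false, true, by decide, by ext x; cases x <;> simp⟩)]
  refine Nat.card_le_card_of_injective
    (fun x : Bool => if x then (⟨1, h1⟩ : {g : G // len g ≤ 1}) else ⟨evG [.A], h2⟩) ?_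
  intro x y hxy
  cases x <;> cases y
  · rfl
  · simp only [Bool.false_eq_true, if_false, if_true] at hxy
    exact absurd (congrArg Subtype.val hxy).symm hne
  · simp only [Bool.false_eq_true, if_false, if_true] at hxy
    exact absurd (congrArg Subtype.val hxy) hne
  · rfl

variable {lam : ℝ}

/-- Interpolation of the lower bound. -/
theorem lower_of_geometric (h : IsLam lam)
    (H : ∃ C c : ℝ, 0 < C ∧ 0 < c ∧ ∀ m n : ℕ, C * lam ^ m ≤ n → Real.exp (c * 2 ^ m) ≤ ball n) :
    ∃ c : ℝ, 0 < c ∧ ∀ n : ℕ, 1 ≤ n → Real.exp (c * (n : ℝ) ^ al lam) ≤ ball n := by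
  obtain ⟨C, c, hC, hc, H⟩ := H
  have hα := al_pos h
  have hlam := h.gt
  have hl0 := h.pos
  have hl1 : 1 < lam := by linarith
  have hCα : 0 < C ^ al lam := Real.rpow_pos_of_pos hC _
  have hball : ∀ n : ℕ, 1 ≤ n → (2 : ℝ) ≤ ball n := by
    intro n hn
    have := two_le_ball_one.trans (ball_mono hn)
    exact_mod_cast this
  refine ⟨min (c / (2 * C ^ al lam)) (Real.log 2 / C ^ al lam), ?_, ?_⟩
  · refine lt_min (by positivity) (div_pos (Real.log_pos one_lt_two) hCα)
  intro n hn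
  have hn1 : (1 : ℝ) ≤ n := by exact_mod_cast hn
  have hnα : 0 < (n : ℝ) ^ al lam := Real.rpow_pos_of_pos (by linarith) _
  by_cases hlt : (n : ℝ) < C
  · have h1 : (n : ℝ) ^ al lam ≤ C ^ al lam := Real.rpow_le_rpow (by linarith) hlt.le hα.le
    have h2 : min (c / (2 * C ^ al lam)) (Real.log 2 / C ^ al lam) * (n : ℝ) ^ al lam
        ≤ Real.log 2 / C ^ al lam * C ^ al lam := by
      refine mul_le_mul (min_le_right _ _) h1 hnα.le ?_
      exact (div_pos (Real.log_pos one_lt_two) hCα).le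
    rw [div_mul_cancel₀ _ hCα.ne'] at h2
    refine (Real.exp_le_exp.2 h2).trans ?_
    rw [Real.exp_log two_pos]
    exact hball n hn
  · push Not at hlt
    obtain ⟨m, hm1, hm2⟩ := exists_nat_pow_near (x := (n : ℝ) / C) (y := lam)
      (by rw [le_div_iff₀ hC]; linarith) hl1
    have hm1' : C * lam ^ m ≤ n := by
      rw [le_div_iff₀ hC] at hm1; linarith
    have hm2' : (n : ℝ) ≤ C * lam ^ (m + 1) := by
      rw [div_lt_iff₀ hC] at hm2; linarith
    refine le_trans (Real.exp_le_exp.2 ?_) (H m n hm1')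
    have h1 : (n : ℝ) ^ al lam ≤ C ^ al lam * 2 ^ (m + 1) := by
      refine (Real.rpow_le_rpow (by linarith) hm2' hα.le).trans ?_
      rw [Real.mul_rpow hC.le (by positivity)]
      refine le_of_eq ?_
      congr 1
      rw [← Real.rpow_natCast, ← Real.rpow_mul hl0.le, mul_comm, Real.rpow_mul hl0.le,
        lam_rpow_al h, Real.rpow_natCast]
    have h2 : min (c / (2 * C ^ al lam)) (Real.log 2 / C ^ al lam) * (n : ℝ) ^ al lam
        ≤ c / (2 * C ^ al lam) * (C ^ al lam * 2 ^ (m + 1)) :=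
      mul_le_mul (min_le_left _ _) h1 hnα.le (by positivity)
    refine h2.trans (le_of_eq ?_)
    field_simp
    ring

/-- The model function `⌊exp (n ^ α)⌋`. -/
noncomputable def model (lam : ℝ) (n : ℕ) : ℕ := ⌊Real.exp ((n : ℝ) ^ (Real.log 2 / Real.log lam))⌋₊

theorem dom_of_bounds (h : IsLam lam)
    (H : ∃ C c : ℝ, 0 < C ∧ 0 < c ∧ ∀ m n : ℕ, C * lam ^ m ≤ n → Real.exp (c * 2 ^ m) ≤ ball n) :
    Dom ball (model lam) ∧ Dom (model lam) ball := by
  have hα := al_pos h
  have key : ∀ t : ℝ, 0 < t → ∃ k : ℕ, 1 ≤ k ∧ t ≤ (k : ℝ) ^ al lam := by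
    intro t ht
    obtain ⟨k, hk⟩ := exists_nat_ge (t ^ (1 / al lam))
    refine ⟨k + 1, by omega, ?_⟩
    have h1 : t ^ (1 / al lam) ≤ ((k + 1 : ℕ) : ℝ) := by push_cast; linarith
    have h2 := Real.rpow_le_rpow (Real.rpow_nonneg ht.le _) h1 hα.le
    rwa [← Real.rpow_mul ht.le, one_div, inv_mul_cancel₀ hα.ne', Real.rpow_one] at h2
  constructor
  · obtain ⟨C, hC, hup⟩ := upper h
    obtain ⟨k, hk1, hk⟩ := key C hC
    refine ⟨k, hk1, fun n hn => ?_⟩
    refine Nat.le_floor ((hup n hn).trans (Real.exp_le_exp.2 ?_))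
    push_cast
    rw [Real.mul_rpow (by positivity) (by positivity)]
    exact mul_le_mul_of_nonneg_right hk (by positivity)
  · obtain ⟨c, hc, hlow⟩ := lower_of_geometric h H
    obtain ⟨k, hk1, hk⟩ := key (1 / c) (by positivity)
    refine ⟨k, hk1, fun n hn => ?_⟩
    have h1 := hlow (k * n) (Nat.mul_pos hk1 hn)
    have h2 : (model lam n : ℝ) ≤ Real.exp ((n : ℝ) ^ al lam) := Nat.floor_le (Real.exp_pos _).le
    have h3 : (n : ℝ) ^ al lam ≤ c * ((k * n : ℕ) : ℝ) ^ al lam := by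
      push_cast
      rw [Real.mul_rpow (by positivity) (by positivity)]
      have h4 : 1 ≤ c * (k : ℝ) ^ al lam := by
        rw [div_le_iff₀ hc] at hk; linarith
      have h5 : 0 ≤ (n : ℝ) ^ al lam := by positivity
      nlinarith
    have h4 := (h2.trans (Real.exp_le_exp.2 h3)).trans h1
    exact_mod_cast h4

end Pool.Agent.H56R2.Grig
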