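import Mathlib
import Pool.Agent.H776R2.Grig.Defs
import Pool.Agent.H56R2.Grig.Wrap

/-!
# The upper bound and the final analysis in the form used by `H776R2.Grig`
-/

set_option autoImplicit false

namespace Pool.Agent.H56R2.Grig

open Pool.Agent Pool.Agent.Results.MP_03d093_al.SphereBall

theorem isLam : IsLam H776R2.Grig.lam := ⟨H776R2.Grig.lam_pos, H776R2.Grig.lam_eq⟩

theorem al_eq : al H776R2.Grig.lam = H776R2.Grig.alpha := rfl

theorem ball_zero : ball 0 = 1 := by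
  have h : ∀ g : {g : G // len g ≤ 0}, g = ⟨1, by
      have := len_le ([] : List Lt)
      have e : evG ([] : List Lt) = 1 := rfl
      rw [e] at this
      simpa using this⟩ := by
    intro g
    obtain ⟨w, hw1, hw2⟩ := exists_geod g.1
    have h0 : w = [] := List.length_eq_zero_iff.1 (by have := g.2; omega)
    subst h0
    exact Subtype.ext hw2.symm
  unfold ball
  rw [Nat.card_eq_one_iff_unique]
  exact ⟨⟨fun x y => (h x).trans (h y).symm⟩, ⟨⟨1, by
      have := len_le ([] : List Lt)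
      have e : evG ([] : List Lt) = 1 := rfl
      rw [e] at this
      simpa using this⟩⟩⟩

theorem expo_zero : H776R2.Grig.expo 0 = 1 := by
  unfold H776R2.Grig.expo
  have : H776R2.Grig.alpha ≠ 0 := (al_pos isLam).ne'
  simp [Real.zero_rpow this]

theorem ball_upper : ∃ C : ℝ, 0 < C ∧ ∀ N : ℕ,
    (ball ⌊H776R2.Grig.lam ^ N⌋₊ : ℝ) ≤ Real.exp (C * 2 ^ N) := by
  obtain ⟨C, hC, h⟩ := upper isLam
  refine ⟨C, hC, fun N => ?_⟩
  have h1 : (1 : ℝ) ≤ H776R2.Grig.lam ^ N := one_le_pow₀ (by have := isLam.gt; linarith)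
  have h2 : 1 ≤ ⌊H776R2.Grig.lam ^ N⌋₊ := Nat.le_floor (by simpa using h1)
  refine (h _ h2).trans (Real.exp_le_exp.2 (mul_le_mul_of_nonneg_left ?_ hC.le))
  have h3 : ((⌊H776R2.Grig.lam ^ N⌋₊ : ℕ) : ℝ) ≤ H776R2.Grig.lam ^ N := Nat.floor_le (by linarith)
  refine (Real.rpow_le_rpow (by positivity) h3 (al_pos isLam).le).trans (le_of_eq ?_)
  rw [← Real.rpow_natCast, ← Real.rpow_mul isLam.pos.le, mul_comm, Real.rpow_mul isLam.pos.le,
    lam_rpow_al isLam, Real.rpow_natCast]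

theorem final_lower
    (h : ∃ A : ℝ, 0 < A ∧ ∀ k : ℕ, 2 ^ (2 ^ k) ≤ ball ⌊A * H776R2.Grig.lam ^ k⌋₊) :
    H776R2.Grig.Domi H776R2.Grig.expo ball := by
  obtain ⟨A, hA, h⟩ := h
  have H : ∃ C c : ℝ, 0 < C ∧ 0 < c ∧ ∀ m n : ℕ, C * H776R2.Grig.lam ^ m ≤ n →
      Real.exp (c * 2 ^ m) ≤ ball n := by
    refine ⟨A, Real.log 2, hA, Real.log_pos one_lt_two, fun m n hmn => ?_⟩
    have h1 : ⌊A * H776R2.Grig.lam ^ m⌋₊ ≤ n := Nat.floor_le_of_le hmn
    have h2 := (h m).trans (ball_mono h1)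
    have h3 : Real.exp (Real.log 2 * 2 ^ m) = ((2 ^ (2 ^ m) : ℕ) : ℝ) := by
      push_cast
      rw [← Real.rpow_natCast 2 (2 ^ m), Real.rpow_def_of_pos two_pos]
      push_cast
      rfl
    rw [h3]
    exact_mod_cast h2
  obtain ⟨C, hC1, hC⟩ := (dom_of_bounds isLam H).2
  refine ⟨C, hC1, fun n => ?_⟩
  rcases Nat.eq_zero_or_pos n with rfl | hn
  · rw [mul_zero, expo_zero, ball_zero]
  · exact hC n hn

theorem final_upper
    (_h : ∃ C : ℝ, 0 < C ∧ ∀ N : ℕ, (ball ⌊H776R2.Grig.lam ^ N⌋₊ : ℝ) ≤ Real.exp (C * 2 ^ N)) :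
    H776R2.Grig.Domi ball H776R2.Grig.expo := by
  obtain ⟨C, hC, hup⟩ := upper isLam
  have hα := al_pos isLam
  obtain ⟨k, hk⟩ := exists_nat_ge (C ^ (1 / al H776R2.Grig.lam))
  have hk' : C ≤ ((k + 1 : ℕ) : ℝ) ^ al H776R2.Grig.lam := by
    have h1 : C ^ (1 / al H776R2.Grig.lam) ≤ ((k + 1 : ℕ) : ℝ) := by push_cast; linarith
    have h2 := Real.rpow_le_rpow (Real.rpow_nonneg hC.le _) h1 hα.le
    rwa [← Real.rpow_mul hC.le, one_div, inv_mul_cancel₀ hα.ne', Real.rpow_one] at h2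
  refine ⟨k + 1, by omega, fun n => ?_⟩
  rcases Nat.eq_zero_or_pos n with rfl | hn
  · rw [mul_zero, expo_zero, ball_zero]
  · refine Nat.le_floor ((hup n hn).trans (Real.exp_le_exp.2 ?_))
    rw [← al_eq]
    push_cast
    rw [Real.mul_rpow (by positivity) (by positivity)]
    push_cast at hk'
    exact mul_le_mul_of_nonneg_right hk' (by positivity)

end Pool.Agent.H56R2.Grig
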